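import Pool.Agent.MP_5f72fe_nt.H57.T3

/-! Decay of cusp forms at the cusps. -/

namespace Pool.Agent.MP_5f72fe_nt.H57

open Complex Filter Topology
open scoped Real MatrixGroups UpperHalfPlane
open Pool.Agent.MP_5f72fe_nt.H3

theorem ph_bd (S : RowSER) {k : ℕ} (f : CuspForm 𝒮ℒ (2 * k : ℕ)) {s : ℝ} (hs : 0 ≤ s) :
    ∃ C : ℝ, 0 ≤ C ∧ ∀ w : ℍ, ph k f w * w.im ^ s ≤ C := by
  have hf := (S.cf _ f).2.2.1
  have e : ∀ w : ℍ, ph k f w = ‖f w‖ * w.im ^ k := fun w => by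
    rw [ph, fC, ← hf w]; rfl
  obtain ⟨C0, hC0⟩ := CuspFormClass.exists_bound f
  have b0 : ∀ w : ℍ, ph k f w ≤ C0 := fun w => by
    have h := hC0 w
    have h2 : (((((2 * k : ℕ) : ℤ) : ℝ)) / 2) = (k : ℝ) := by push_cast; ring
    rw [h2, Real.rpow_natCast, le_div_iff₀ (pow_pos w.im_pos _)] at h
    rwa [e]
  obtain ⟨c, hc, hO⟩ := CuspFormClass.exp_decay_atImInfty' f
  obtain ⟨D, hD0, hD⟩ := hO.exists_pos
  obtain ⟨A, hA⟩ := (UpperHalfPlane.atImInfty_mem _).1 hD.bound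
  have ht := tendsto_rpow_mul_exp_neg_mul_atTop_nhds_zero (k + s) c hc
  obtain ⟨B, hB⟩ := eventually_atTop.1 (ht.eventually (gt_mem_nhds one_pos))
  set T : ℝ := max (max A B) 0 with hT
  have p0 : ∀ w : ℍ, 0 ≤ ph k f w := fun w => mul_nonneg (norm_nonneg _) (pow_nonneg w.im_pos.le _)
  have C00 : 0 ≤ C0 := (p0 UpperHalfPlane.I).trans (b0 _)
  have T0 : 0 ≤ T := le_max_right _ _
  refine ⟨C0 * T ^ s + D, by positivity, fun w => ?_⟩
  have hw := w.im_pos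
  rcases le_total w.im T with h | h
  · have h1 : w.im ^ s ≤ T ^ s := Real.rpow_le_rpow hw.le h hs
    have h2 : ph k f w * w.im ^ s ≤ C0 * T ^ s := mul_le_mul (b0 w) h1 (by positivity) C00
    linarith
  · have h1 : ‖f w‖ ≤ D * Real.exp (-c * w.im) := by
      have := hA w ((le_max_left _ _).trans ((le_max_left _ _).trans h))
      simpa using this
    have h2 := hB w.im ((le_max_right _ _).trans ((le_max_left _ _).trans h))
    have h3 : ph k f w * w.im ^ s = ‖f w‖ * w.im ^ ((k : ℝ) + s) := by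
      rw [e, Real.rpow_add hw, Real.rpow_natCast]; ring
    have h4 : ‖f w‖ * w.im ^ ((k : ℝ) + s) ≤ D * Real.exp (-c * w.im) * w.im ^ ((k : ℝ) + s) :=
      mul_le_mul_of_nonneg_right h1 (by positivity)
    have h5 : D * (w.im ^ ((k : ℝ) + s) * Real.exp (-c * w.im)) ≤ D * 1 :=
      mul_le_mul_of_nonneg_left h2.le hD0.le
    have h6 : 0 ≤ C0 * T ^ s := by positivity
    nlinarith

theorem rowDEC : OfDEC := by
  intro S _ k f s hs
  obtain ⟨C, hC0, hC⟩ := ph_bd S f hs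
  refine ⟨C, fun p q z hz hpq => ?_⟩
  have hg : 0 < Int.gcd q p := by
    rw [Int.gcd_pos_iff]
    by_contra hn
    push Not at hn
    exact hpq (by rw [hn.1, hn.2])
  obtain ⟨q', p', hco, hq, hp⟩ := Int.exists_gcd_one hg
  obtain ⟨γ, h0, h1⟩ := (Int.isCoprime_iff_gcd_eq_one.2 hco).exists_SL2_row 1
  have e := ph_smul S f γ ⟨z, hz⟩
  have hi := ModularGroup.im_smul_eq_div_normSq γ ⟨z, hz⟩
  rw [ModularGroup.denom_apply, h0, h1] at hi
  have hw := (γ • (⟨z, hz⟩ : ℍ) : ℍ).im_pos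
  have hb := hC (γ • (⟨z, hz⟩ : ℍ))
  rw [e] at hb
  set Y : ℝ := (γ • (⟨z, hz⟩ : ℍ) : ℍ).im with hY
  have hi' : Y = z.im / ‖(q' : ℂ) * z + p'‖ ^ 2 := by
    rw [hi, Complex.normSq_eq_norm_sq]; rfl
  have hn : ‖(q' : ℂ) * z + p'‖ ≤ ‖(q : ℂ) * z + p‖ := by
    have e2 : (q : ℂ) * z + p = ((q' : ℂ) * z + p') * (Int.gcd q p : ℕ) := by
      have a1 : (q : ℂ) = q' * (Int.gcd q p : ℕ) := by exact_mod_cast congrArg (Int.cast : ℤ → ℂ) hq
      have a2 : (p : ℂ) = p' * (Int.gcd q p : ℕ) := by exact_mod_cast congrArg (Int.cast : ℤ → ℂ) hp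
      linear_combination z * a1 + a2
    rw [e2, norm_mul, Complex.norm_natCast]
    exact le_mul_of_one_le_right (norm_nonneg _) (by exact_mod_cast hg)
  have hinv : Y⁻¹ ≤ ‖(q : ℂ) * z + p‖ ^ 2 / z.im := by
    rw [hi', inv_div]
    exact div_le_div_of_nonneg_right (pow_le_pow_left₀ (norm_nonneg _) hn 2) hz.le
  have h2 : Y⁻¹ ^ s ≤ (‖(q : ℂ) * z + p‖ ^ 2 / z.im) ^ s :=
    Real.rpow_le_rpow (by positivity) hinv hs
  have h3 : ph k f z ≤ C * Y⁻¹ ^ s := by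
    rw [Real.inv_rpow hw.le, ← div_eq_mul_inv, le_div_iff₀ (by positivity)]
    exact hb
  exact h3.trans (mul_le_mul_of_nonneg_left h2 hC0)

end Pool.Agent.MP_5f72fe_nt.H57
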