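import Pool.Agent.MP_5f72fe_nt.H3.SpecC

/-! The extreme eigenvalue of the third Hecke operator does not occur on cusp forms. -/

namespace Pool.Agent.MP_5f72fe_nt.H57

open Complex Filter Topology
open scoped Real MatrixGroups UpperHalfPlane
open Pool.Agent.MP_5f72fe_nt.H3

theorem root_sum (J : RowJH) (n : ℕ) :
    E 0 + E (n / 3) + E (2 * n / 3) = if 3 ∣ n then 3 else 0 := by
  have h0 : E 0 = 1 := by simpa using J.int 0
  have hs : ((√3 : ℝ) : ℂ) ^ 2 = 3 := by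
    rw [← Complex.ofReal_pow, Real.sq_sqrt (by norm_num)]; norm_num
  have h1 := J.quarter.2.2.2
  have h2 : E (2 / 3) = E (1 / 3) * E (1 / 3) := by rw [← J.add]; norm_num
  have hI : I ^ 2 = -1 := Complex.I_sq
  have key : 1 + E (1 / 3) + E (2 / 3) = 0 := by
    rw [h2, h1]
    linear_combination (1 / 4 * ((√3 : ℝ) : ℂ) ^ 2) * hI - (1 / 4) * hs
  obtain ⟨q, hq⟩ : ∃ q, n = 3 * q ∨ n = 3 * q + 1 ∨ n = 3 * q + 2 := ⟨n / 3, by omega⟩
  have hi : ∀ (a : ℕ) (x : ℂ), E (a + x) = E x := fun a x => by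
    have := J.int a
    rw [J.add, show ((a : ℕ) : ℂ) = ((a : ℤ) : ℂ) by simp, this, one_mul]
  rcases hq with rfl | rfl | rfl
  · rw [if_pos ⟨q, rfl⟩]
    have a1 : E (((3 * q : ℕ) : ℂ) / 3) = 1 := by
      rw [show ((3 * q : ℕ) : ℂ) / 3 = (q : ℕ) + 0 by push_cast; ring, hi, h0]
    have a2 : E (2 * ((3 * q : ℕ) : ℂ) / 3) = 1 := by
      rw [show 2 * ((3 * q : ℕ) : ℂ) / 3 = (2 * q : ℕ) + 0 by push_cast; ring, hi, h0]
    rw [a1, a2, h0]; norm_num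
  · rw [if_neg (by omega)]
    have a1 : E (((3 * q + 1 : ℕ) : ℂ) / 3) = E (1 / 3) := by
      rw [show ((3 * q + 1 : ℕ) : ℂ) / 3 = (q : ℕ) + 1 / 3 by push_cast; ring, hi]
    have a2 : E (2 * ((3 * q + 1 : ℕ) : ℂ) / 3) = E (2 / 3) := by
      rw [show 2 * ((3 * q + 1 : ℕ) : ℂ) / 3 = (2 * q : ℕ) + 2 / 3 by push_cast; ring, hi]
    rw [a1, a2, h0, key]
  · rw [if_neg (by omega)]
    have a1 : E (((3 * q + 2 : ℕ) : ℂ) / 3) = E (2 / 3) := by
      rw [show ((3 * q + 2 : ℕ) : ℂ) / 3 = (q : ℕ) + 2 / 3 by push_cast; ring, hi]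
    have a2 : E (2 * ((3 * q + 2 : ℕ) : ℂ) / 3) = E (1 / 3) := by
      rw [show 2 * ((3 * q + 2 : ℕ) : ℂ) / 3 = (2 * q + 1 : ℕ) + 1 / 3 by push_cast; ring, hi]
    rw [a1, a2, h0]
    linear_combination key

theorem hs_ser (S : RowSER) {c : ℕ → ℂ} (hc : Sm c) {z : ℂ} (hz : 0 < z.im) :
    HasSum (fun n : ℕ => c n * E (n * z)) (ser 1 c z) := by
  have h := (S.nsum 1 c z one_pos hc hz).of_norm.hasSum
  simpa [ser] using h

theorem hs_up (S : RowSER) {c : ℕ → ℂ} (hc : Sm c) {z : ℂ} (hz : 0 < z.im) :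
    HasSum (fun n : ℕ => up 3 c n * E (n * z)) (ser 1 c (3 * z)) := by
  have h := hs_ser S hc (z := 3 * z) (by simp; exact hz)
  have hinj : Function.Injective fun m : ℕ => 3 * m := fun a b hab => by simpa using hab
  refine (hinj.hasSum_iff (f := fun n : ℕ => up 3 c n * E (n * z)) ?_).1 ?_
  · intro n hn
    have : ¬ 3 ∣ n := fun ⟨m, hm⟩ => hn ⟨m, hm.symm⟩
    simp [up, this]
  · have e : ((fun n : ℕ => up 3 c n * E (n * z)) ∘ fun m : ℕ => 3 * m) =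
        fun n : ℕ => c n * E (n * (3 * z)) := by
      funext m
      simp only [Function.comp, up, dvd_mul_right, if_true]
      rw [Nat.mul_div_cancel_left m (by norm_num : 0 < 3)]
      congr 2
      push_cast; ring
    rw [e]; exact h

theorem hs_down (S : RowSER) (J : RowJH) {c : ℕ → ℂ} (hc : Sm c) {z : ℂ} (hz : 0 < z.im) :
    HasSum (fun m : ℕ => 3 * (c (3 * m) * E (m * z)))
      (ser 1 c (z / 3) + ser 1 c ((z + 1) / 3) + ser 1 c ((z + 2) / 3)) := by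
  have p0 : 0 < (z / 3).im := by
    rw [show z / 3 = z / ((3 : ℝ) : ℂ) by simp, Complex.div_ofReal_im]; positivity
  have p1 : 0 < ((z + 1) / 3).im := by
    rw [show (z + 1) / 3 = (z + 1) / ((3 : ℝ) : ℂ) by simp, Complex.div_ofReal_im]
    simp; positivity
  have p2 : 0 < ((z + 2) / 3).im := by
    rw [show (z + 2) / 3 = (z + 2) / ((3 : ℝ) : ℂ) by simp, Complex.div_ofReal_im]
    simp; positivity
  have h := ((hs_ser S hc p0).add (hs_ser S hc p1)).add (hs_ser S hc p2)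
  have e : (fun n : ℕ => c n * E (n * (z / 3)) + c n * E (n * ((z + 1) / 3)) +
      c n * E (n * ((z + 2) / 3))) =
      fun n : ℕ => c n * E (n * (z / 3)) * if 3 ∣ n then 3 else 0 := by
    funext n
    rw [← root_sum J n, show (n : ℂ) * ((z + 1) / 3) = n * (z / 3) + n / 3 by ring,
      show (n : ℂ) * ((z + 2) / 3) = n * (z / 3) + 2 * n / 3 by ring, J.add, J.add]
    have h0 : E 0 = 1 := by simpa using J.int 0
    rw [h0]; ring
  rw [e] at h
  have hinj : Function.Injective fun m : ℕ => 3 * m := fun a b hab => by simpa using hab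
  have h2 := (hinj.hasSum_iff (f := fun n : ℕ => c n * E (n * (z / 3)) *
    if 3 ∣ n then 3 else 0) (fun n hn => by
      have : ¬ 3 ∣ n := fun ⟨m, hm⟩ => hn ⟨m, hm.symm⟩
      simp [this])).2 h
  have e2 : ((fun n : ℕ => c n * E (n * (z / 3)) * if 3 ∣ n then (3 : ℂ) else 0) ∘
      fun m : ℕ => 3 * m) = fun m : ℕ => 3 * (c (3 * m) * E (m * z)) := by
    funext m
    simp only [Function.comp, dvd_mul_right, if_true]
    rw [show ((3 * m : ℕ) : ℂ) * (z / 3) = m * z by push_cast; ring]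
    ring
  rwa [e2] at h2

theorem hecke (S : RowSER) (J : RowJH) {c : ℕ → ℂ} (hc : Sm c) (h0 : c 0 = 0) {A l : ℂ}
    (h : ∀ m : ℕ, 1 ≤ m → c (3 * m) + A * up 3 c m = l * c m) {z : ℂ} (hz : 0 < z.im) :
    3 * l * ser 1 c z = 3 * A * ser 1 c (3 * z) +
      (ser 1 c (z / 3) + ser 1 c ((z + 1) / 3) + ser 1 c ((z + 2) / 3)) := by
  have h1 := ((hs_up S hc hz).mul_left (3 * A)).add (hs_down S J hc hz)
  have h2 := (hs_ser S hc hz).mul_left (3 * l)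
  refine h2.unique ?_
  have e : (fun n : ℕ => 3 * l * (c n * E (n * z))) = fun n : ℕ =>
      3 * A * (up 3 c n * E (n * z)) + 3 * (c (3 * n) * E (n * z)) := by
    funext n
    rcases Nat.eq_zero_or_pos n with rfl | hn
    · simp [up, h0]
    · linear_combination (-3 * E (n * z)) * h n hn
  rw [e]; exact h1

/-- the invariant size -/
noncomputable def ph (k : ℕ) (f : ℍ → ℂ) (z : ℂ) : ℝ := ‖fC f z‖ * z.im ^ k

theorem ph_step (S : RowSER) (J : RowJH) {k : ℕ} {f : ℍ → ℂ} (hc : Sm (aF f)) (h0 : aF f 0 = 0)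
    {t : ℂ} (ht : ‖t‖ = 1)
    (h : ∀ m : ℕ, 1 ≤ m → aF f (3 * m) + 3 ^ (2 * (k + 1) - 1) * up 3 (aF f) m =
      t * (3 ^ (k + 1) + 3 ^ (k + 1 - 1)) * aF f m) {M : ℝ}
    (hM : ∀ z : ℂ, 0 < z.im → ph (k + 1) f z ≤ M) {z : ℂ} (hz : 0 < z.im) :
    4 * ph (k + 1) f z ≤ ph (k + 1) f (3 * z) + 3 * M := by
  have e := hecke S J hc h0 h hz
  have i0 : (z / 3).im = z.im / 3 := by
    rw [show z / 3 = z / ((3 : ℝ) : ℂ) by simp, Complex.div_ofReal_im]
  have i1 : ((z + 1) / 3).im = z.im / 3 := by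
    rw [show (z + 1) / 3 = (z + 1) / ((3 : ℝ) : ℂ) by simp, Complex.div_ofReal_im]
    simp
  have i2 : ((z + 2) / 3).im = z.im / 3 := by
    rw [show (z + 2) / 3 = (z + 2) / ((3 : ℝ) : ℂ) by simp, Complex.div_ofReal_im]
    simp
  have i3 : (3 * z).im = 3 * z.im := by simp
  have m0 := hM (z / 3) (by rw [i0]; positivity)
  have m1 := hM ((z + 1) / 3) (by rw [i1]; positivity)
  have m2 := hM ((z + 2) / 3) (by rw [i2]; positivity)
  simp only [ph, fC, i0, i1, i2, i3] at m0 m1 m2 ⊢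
  have n1 : ‖3 * (t * (3 ^ (k + 1) + 3 ^ (k + 1 - 1))) * ser 1 (aF f) z‖ =
      4 * 3 ^ (k + 1) * ‖ser 1 (aF f) z‖ := by
    rw [show (3 : ℂ) * (t * (3 ^ (k + 1) + 3 ^ (k + 1 - 1))) = t * (4 * 3 ^ (k + 1)) by
      simp only [Nat.add_sub_cancel]; ring]
    simp [ht]
  have n2 : ‖3 * (3 : ℂ) ^ (2 * (k + 1) - 1) * ser 1 (aF f) (3 * z)‖ =
      3 ^ (k + 1) * 3 ^ (k + 1) * ‖ser 1 (aF f) (3 * z)‖ := by
    rw [show 2 * (k + 1) - 1 = 2 * k + 1 by omega,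
      show 3 * (3 : ℂ) ^ (2 * k + 1) = 3 ^ (k + 1) * 3 ^ (k + 1) by ring]
    simp
  have n3 := norm_add_le (3 * (3 : ℂ) ^ (2 * (k + 1) - 1) * ser 1 (aF f) (3 * z))
    (ser 1 (aF f) (z / 3) + ser 1 (aF f) ((z + 1) / 3) + ser 1 (aF f) ((z + 2) / 3))
  have n4 := norm_add₃_le (a := ser 1 (aF f) (z / 3)) (b := ser 1 (aF f) ((z + 1) / 3))
    (c := ser 1 (aF f) ((z + 2) / 3))
  rw [← e, n1, n2] at n3
  set P : ℝ := 3 ^ (k + 1) with hP
  have hP0 : 0 < P := by positivity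
  set Y : ℝ := z.im ^ (k + 1) with hY
  have hY0 : 0 < Y := by positivity
  have y1 : (z.im / 3) ^ (k + 1) = Y / P := by rw [div_pow]
  have y3 : (3 * z.im) ^ (k + 1) = P * Y := by rw [mul_pow]
  rw [y1] at m0 m1 m2
  rw [y3]
  have key : 4 * P * ‖ser 1 (aF f) z‖ * (Y / P) ≤ (P * P * ‖ser 1 (aF f) (3 * z)‖ +
      (‖ser 1 (aF f) (z / 3)‖ + ‖ser 1 (aF f) ((z + 1) / 3)‖ + ‖ser 1 (aF f) ((z + 2) / 3)‖)) *
        (Y / P) := mul_le_mul_of_nonneg_right (by linarith) (by positivity)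
  have a1 : 4 * P * ‖ser 1 (aF f) z‖ * (Y / P) = 4 * (‖ser 1 (aF f) z‖ * Y) := by field_simp
  have a2 : P * P * ‖ser 1 (aF f) (3 * z)‖ * (Y / P) = ‖ser 1 (aF f) (3 * z)‖ * (P * Y) := by
    field_simp
  rw [a1, add_mul, a2, add_mul, add_mul] at key
  linarith

theorem ph_smul (S : RowSER) {k : ℕ} (f : CuspForm 𝒮ℒ (2 * k : ℕ)) (γ : SL(2, ℤ)) (z : ℍ) :
    ph k f ((γ • z : ℍ) : ℂ) = ph k f z := by
  have hf := (S.cf _ f).2.2.1
  have h := SlashInvariantFormClass.norm_petersson_smul (k := ((2 * k : ℕ) : ℤ)) (Γ := 𝒮ℒ)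
    (g := Matrix.SpecialLinearGroup.mapGL ℝ γ) (τ := z) (f := f) (f' := f) ⟨γ, rfl⟩
  have e : ∀ w : ℍ, ‖UpperHalfPlane.petersson ((2 * k : ℕ) : ℤ) f f w‖ = ph k f w ^ 2 := by
    intro w
    rw [ph, fC, ← hf w, UpperHalfPlane.petersson, zpow_natCast, norm_mul, norm_mul, norm_pow,
      Complex.norm_real, Real.norm_of_nonneg w.im_pos.le, Complex.norm_conj]
    simp only [UpperHalfPlane.coe_im]
    ring
  rw [e, e] at h
  have p : ∀ w : ℍ, 0 ≤ ph k f w := fun w => mul_nonneg (norm_nonneg _) (pow_nonneg w.im_pos.le _)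
  exact (pow_left_inj₀ (p _) (p _) two_ne_zero).1 h

theorem rowT3 : OfT3 := by
  intro S J D k f t hk ht h
  obtain ⟨k, rfl⟩ : ∃ k', k = k' + 1 := ⟨k - 1, by omega⟩
  obtain ⟨hc, h0, hf, -⟩ := S.cf _ f
  obtain ⟨C0, hC0⟩ := D (k + 1) f 0 le_rfl
  obtain ⟨C1, hC1⟩ := D (k + 1) f 1 zero_le_one
  have b0 : ∀ z : ℂ, 0 < z.im → ph (k + 1) f z ≤ C0 := fun z hz => by
    simpa [ph] using hC0 1 0 z hz (by simp)
  have b1 : ∀ z : ℂ, 0 < z.im → ph (k + 1) f z ≤ C1 / z.im := fun z hz => by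
    simpa [ph, div_eq_mul_inv] using hC1 1 0 z hz (by simp)
  set T : Set ℝ := ph (k + 1) f '' {z : ℂ | 0 < z.im} with hT
  have Tb : BddAbove T := ⟨C0, by rintro _ ⟨z, hz, rfl⟩; exact b0 z hz⟩
  have Tn : T.Nonempty := ⟨_, I, by simp, rfl⟩
  set M := sSup T with hMd
  have hM : ∀ z : ℂ, 0 < z.im → ph (k + 1) f z ≤ M := fun z hz => le_csSup Tb ⟨z, hz, rfl⟩
  have it : ∀ (r : ℕ) (z : ℂ), 0 < z.im →
      M - ph (k + 1) f (3 ^ r * z) ≤ 4 ^ r * (M - ph (k + 1) f z) := by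
    intro r z hz
    induction r with
    | zero => simp
    | succ r ih =>
      have hz' : 0 < ((3 : ℂ) ^ r * z).im := by
        rw [show (3 : ℂ) ^ r = ((3 ^ r : ℝ) : ℂ) by simp, Complex.im_ofReal_mul]; positivity
      have := ph_step S J hc h0 ht h hM hz'
      rw [show (3 : ℂ) ^ (r + 1) * z = 3 * (3 ^ r * z) by ring, pow_succ]
      linarith
  have M0 : M ≤ 0 := by
    by_contra hpos
    have hpos : 0 < M := not_le.1 hpos
    obtain ⟨r, hr⟩ := pow_unbounded_of_one_lt (4 * |C1| / M) (by norm_num : (1 : ℝ) < 3)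
    have p4 : (0 : ℝ) < 4 ^ r := by positivity
    have p3 : (0 : ℝ) < 3 ^ r := by positivity
    obtain ⟨_, ⟨z, hz, rfl⟩, hlt⟩ := exists_lt_of_lt_csSup Tn
      (show M - M / 2 / 4 ^ r < M from sub_lt_self _ (by positivity))
    obtain ⟨γ, hγ⟩ := ModularGroup.exists_one_half_le_im_smul ⟨z, hz⟩
    have e := ph_smul S f γ ⟨z, hz⟩
    set w : ℂ := ((γ • (⟨z, hz⟩ : ℍ) : ℍ) : ℂ) with hw
    have hw1 : 1 / 2 ≤ w.im := hγ
    have hw0 : 0 < w.im := by linarith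
    have e' : ph (k + 1) f w = ph (k + 1) f z := e
    have i3 : ((3 : ℂ) ^ r * w).im = 3 ^ r * w.im := by
      rw [show (3 : ℂ) ^ r = ((3 ^ r : ℝ) : ℂ) by simp, Complex.im_ofReal_mul]
    have c1 := it r w hw0
    have c2 := b1 (3 ^ r * w) (by rw [i3]; positivity)
    rw [i3] at c2
    have c3 : C1 / (3 ^ r * w.im) ≤ M / 2 := by
      rw [div_le_iff₀ (by positivity)]
      rw [div_lt_iff₀ hpos] at hr
      have : 3 ^ r * M * (1 / 2) ≤ 3 ^ r * M * w.im :=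
        mul_le_mul_of_nonneg_left hw1 (by positivity)
      have := le_abs_self C1
      nlinarith
    have c4 : 4 ^ r * (M - ph (k + 1) f w) < 4 ^ r * (M / 2 / 4 ^ r) :=
      mul_lt_mul_of_pos_left (by rw [e']; linarith) p4
    have c5 : (4 : ℝ) ^ r * (M / 2 / 4 ^ r) = M / 2 := by field_simp
    linarith
  ext z
  have h1 := (hM z z.im_pos).trans M0
  have h2 : 0 < (z : ℂ).im ^ (k + 1) := pow_pos z.im_pos _
  have h3 : ‖fC f z‖ ≤ 0 := by
    by_contra hn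
    exact absurd h1 (not_le.2 (mul_pos (not_le.1 hn) h2))
  rw [hf z]
  simpa [fC] using h3

end Pool.Agent.MP_5f72fe_nt.H57
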